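import Pool.Agent.H59.TV.DC5

/-!
# The topological Vaught conjecture for products of two spaces of the infinite symmetric group

For uncountable Borel `S_∞`-spaces `X` and `Y`, the product `X × Y` (with the diagonal action) has
countably many or perfectly many orbits.  Moreover, when there are not perfectly many, the
stabilisers of all points of `X` and of `Y` have only countably many orbits on the subsets of `ℕ`.
-/

set_option autoImplicit false

open Set

namespace Pool.Agent.H59.Keep.ProductDichotomy

/-- The usual Polish topology of the infinite symmetric group: the topology of pointwise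
convergence of `g` and of `g⁻¹`. -/
def permTopology : TopologicalSpace (Equiv.Perm ℕ) :=
  TopologicalSpace.induced
    (fun g : Equiv.Perm ℕ => ((g : ℕ → ℕ), (g.symm : ℕ → ℕ))) inferInstance

/-- The Borel sets of the infinite symmetric group. -/
def permBorel : MeasurableSpace (Equiv.Perm ℕ) := @borel _ permTopology

/-- The action of the infinite symmetric group on the measurable space `X` is Borel: the map
`(g, x) ↦ g • x` is measurable. -/
def BorelAction (X : Type*) [MeasurableSpace X] [MulAction (Equiv.Perm ℕ) X] : Prop :=
  @Measurable (Equiv.Perm ℕ × X) X (@Prod.instMeasurableSpace _ _ permBorel _) _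
    (fun p => p.1 • p.2)

/-- There are countably many orbits (possibly finitely many). -/
def CountablyManyOrbits (X : Type*) [MulAction (Equiv.Perm ℕ) X] : Prop :=
  Countable (Quotient (MulAction.orbitRel (Equiv.Perm ℕ) X))

/-- There are perfectly many orbits: some Borel map from the Cantor space takes distinct points to
points of distinct orbits. -/
def PerfectlyManyOrbits (X : Type*) [MeasurableSpace X] [MulAction (Equiv.Perm ℕ) X] : Prop :=
  ∃ f : (ℕ → Bool) → X, Measurable f ∧ ∀ u v, u ≠ v → ¬ ∃ g : Equiv.Perm ℕ, g • f u = f v

/-- The permutation group `H` has only countably many orbits on the subsets of `ℕ`. -/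
def CountablyManyOnSubsets (H : Subgroup (Equiv.Perm ℕ)) : Prop :=
  ∃ R : Set (Set ℕ), R.Countable ∧ ∀ A : Set ℕ, ∃ B ∈ R, ∃ h ∈ H, h '' A = B

/-- **Theorem.** Let `X` and `Y` be uncountable Borel `S_∞`-spaces.  Then the product `X × Y`
(with the diagonal action) has perfectly many orbits, or it has only countably many orbits and,
moreover, the stabilisers of all points of `X` and of `Y` have only countably many orbits on the
subsets of `ℕ`. -/
theorem result {X Y : Type*} [MeasurableSpace X] [StandardBorelSpace X]
    [MulAction (Equiv.Perm ℕ) X] [MeasurableSpace Y] [StandardBorelSpace Y]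
    [MulAction (Equiv.Perm ℕ) Y] (hX : BorelAction X) (hY : BorelAction Y)
    (hXu : Uncountable X) (hYu : Uncountable Y) :
    PerfectlyManyOrbits (X × Y) ∨
      (CountablyManyOrbits (X × Y) ∧
        (∀ x : X, CountablyManyOnSubsets (MulAction.stabilizer (Equiv.Perm ℕ) x)) ∧
        ∀ y : Y, CountablyManyOnSubsets (MulAction.stabilizer (Equiv.Perm ℕ) y)) := by
  by_cases hno : ∃ f : (ℕ → Bool) → X × Y, Measurable f ∧ ∀ u v, u ≠ v → ∀ g : Equiv.Perm ℕ,
      g • f u ≠ f v
  · obtain ⟨f, hf, hf'⟩ := hno
    exact Or.inl ⟨f, hf, fun u v huv ⟨g, hg⟩ => hf' u v huv g hg⟩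
  right
  have hXc : CountablyManyOrbits X := by
    by_contra h
    exact hno (Pool.Agent.H59.TV.perfect_prod hX hY h (not_countable_iff.2 hYu))
  have hYc : CountablyManyOrbits Y := by
    by_contra h
    obtain ⟨f, hf, hf'⟩ := Pool.Agent.H59.TV.perfect_prod hY hX h (not_countable_iff.2 hXu)
    refine hno ⟨fun u => (f u).swap, measurable_swap.comp hf, fun u v huv g hg =>
      hf' u v huv g ?_⟩
    have h3 := Prod.ext_iff.1 hg
    exact Prod.ext h3.2 h3.1
  refine ⟨Pool.Agent.H59.TV.countable_prod hXc hYc fun x y => ?_,
    fun x => Pool.Agent.H59.TV.subsets_left hX hY hYu hno x,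
    fun y => Pool.Agent.H59.TV.subsets_right hX hY hXu hno y⟩
  rcases Pool.Agent.H59.TV.cdc_or_perfect hX hY hXu hYu x y with h | h
  · exact absurd h hno
  · exact h

end Pool.Agent.H59.Keep.ProductDichotomy
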